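import Pool.Agent.H587R2.MRB.Avg
import Pool.Agent.H587R2.MRB.APSPDefs

/-!
# All-pairs shortest paths
-/

namespace Pool.Agent.H587R2.MRB

open Finset

section

variable {P a n : ℕ}
  (e : (Fin P × Fin a) ⊕ ((Fin P × Fin a) ⊕ (Fin (2 * P) × Fin a)) ↪ Fin n) (W : ℕ)

/-- The edges of weight `1`. -/
def Cheap (x : Pt P a) (u v : Fin n) : Prop :=
  (∃ i y, u = e (Sum.inl i) ∧ v = e (Sum.inr (Sum.inr y)) ∧ x.1 i y) ∨
    ∃ y j, u = e (Sum.inr (Sum.inr y)) ∧ v = e (Sum.inr (Sum.inl j)) ∧ x.2 y j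

open Classical in
/-- The weights. -/
noncomputable def wt (x : Pt P a) (u v : Fin n) : ℕ := if Cheap e x u v then 1 else W

variable {e W}

theorem cheap_mono {x x' : Pt P a} (h : x ≤ x') {u v : Fin n} (hc : Cheap e x u v) :
    Cheap e x' u v := by
  rcases hc with ⟨i, y, h1, h2, h3⟩ | ⟨y, j, h1, h2, h3⟩
  · exact Or.inl ⟨i, y, h1, h2, h.1 _ _ h3⟩
  · exact Or.inr ⟨y, j, h1, h2, h.2 _ _ h3⟩

theorem wt_values (x : Pt P a) (u v : Fin n) : wt e W x u v = 1 ∨ wt e W x u v = W := by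
  unfold wt; split_ifs <;> simp

theorem wt_anti (hW : 1 ≤ W) {x x' : Pt P a} (h : x ≤ x') (u v : Fin n) :
    wt e W x' u v ≤ wt e W x u v := by
  unfold wt
  by_cases h1 : Cheap e x u v
  · simp [h1, cheap_mono h h1]
  · simp only [h1, if_false]
    split_ifs
    · exact hW
    · exact le_refl _

theorem input_anti (hW : 1 ≤ W) : Antitone fun x : Pt P a => input (wt e W x) := by
  intro x x' h R
  rcases R with ⟨u, v⟩ | q
  · simp only [input, initial]
    exact_mod_cast wt_anti hW h u v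
  · simp [input, initial]

theorem input_dep (R : (Fin n × Fin n) ⊕ ℕ) :
    (∀ A B B', input (wt e W ((A, B) : Pt P a)) R = input (wt e W ((A, B') : Pt P a)) R) ∨
      (∀ A A' B, input (wt e W ((A, B) : Pt P a)) R = input (wt e W ((A', B) : Pt P a)) R) := by
  rcases R with ⟨u, v⟩ | q
  · by_cases hu : ∃ i, u = e (Sum.inl i)
    · left
      obtain ⟨i, rfl⟩ := hu
      intro A B B'
      simp only [input, initial, wt]
      congr 2
      simp [Cheap]
    · right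
      intro A A' B
      simp only [input, initial, wt]
      congr 2
      have h1 : ∀ i, u ≠ e (Sum.inl i) := fun i hi => hu ⟨i, hi⟩
      simp [Cheap, h1]
  · left; intros; rfl

theorem dist_le_two {x : Pt P a} {i j : Fin P × Fin a} (h : ∃ y, x.1 i y ∧ x.2 y j) :
    dist (wt e W x) (e (Sum.inl i)) (e (Sum.inr (Sum.inl j))) ≤ 2 := by
  obtain ⟨y, h1, h2⟩ := h
  refine (ciInf_le (OrderBot.bddBelow _) [e (Sum.inr (Sum.inr y))]).trans (le_of_eq ?_)
  have h3 : Cheap e x (e (Sum.inl i)) (e (Sum.inr (Sum.inr y))) := Or.inl ⟨i, y, rfl, rfl, h1⟩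
  have h4 : Cheap e x (e (Sum.inr (Sum.inr y))) (e (Sum.inr (Sum.inl j))) :=
    Or.inr ⟨y, j, rfl, rfl, h2⟩
  simp [walkLen, wt, h3, h4]

theorem le_walk_of_not_cheap {x : Pt P a} {u : Fin n} (h : ∀ v, ¬ Cheap e x u v)
    (l : List (Fin n)) (v : Fin n) : W ≤ walkLen (wt e W x) u l v := by
  cases l with
  | nil => simp [walkLen, wt, h]
  | cons y l => simp [walkLen, wt, h]

theorem le_dist {x : Pt P a} {i j : Fin P × Fin a} (h : ∀ y, x.1 i y → x.2 y j → False) :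
    W ≤ dist (wt e W x) (e (Sum.inl i)) (e (Sum.inr (Sum.inl j))) := by
  refine le_ciInf fun l => ?_
  cases l with
  | nil =>
    have h1 : ¬ Cheap e x (e (Sum.inl i)) (e (Sum.inr (Sum.inl j))) := by
      simp [Cheap]
    simp [walkLen, wt, h1]
  | cons y l =>
    by_cases h1 : Cheap e x (e (Sum.inl i)) y
    · rcases h1 with ⟨i', y', h2, rfl, h3⟩ | ⟨y', j', h2, -⟩
      · have hi : i' = i := by simpa using h2.symm
        subst hi
        cases l with
        | nil =>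
          have h4 : ¬ Cheap e x (e (Sum.inr (Sum.inr y'))) (e (Sum.inr (Sum.inl j))) := by
            rintro (⟨i'', y'', h5, -⟩ | ⟨y'', j'', h5, h6, h7⟩)
            · simp at h5
            · have hy : y' = y'' := by simpa using h5
              have hj : j = j'' := by simpa using h6
              subst hy; subst hj
              exact h _ h3 h7
          simp [walkLen, wt, h4]
        | cons z l =>
          by_cases h4 : Cheap e x (e (Sum.inr (Sum.inr y'))) z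
          · rcases h4 with ⟨i'', y'', h5, -⟩ | ⟨y'', j'', h5, rfl, -⟩
            · simp at h5
            · have h6 : ∀ v, ¬ Cheap e x (e (Sum.inr (Sum.inl j''))) v := by
                intro v; simp [Cheap]
              have := le_walk_of_not_cheap (W := W) h6 l (e (Sum.inr (Sum.inl j)))
              simp only [walkLen]
              omega
          · have h5 : wt e W x (e (Sum.inr (Sum.inr y'))) z = W := by simp [wt, h4]
            simp only [walkLen, h5]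
            omega
      · simp at h2
    · have h5 : wt e W x (e (Sum.inl i)) y = W := by simp [wt, h1]
      simp only [walkLen, h5]
      omega

end

theorem apsp_param {n P a m W : ℕ} {δ α : ℝ} (hn : 4 * P * a ≤ n) (hα : 1 ≤ α)
    (hW : 2 * α < W) {Ω : Type} [Fintype Ω] (p : Ω → ℝ)
    (Pr : Ω → Prog (Fin n × Fin n) (Fin n × Fin n)) (hS : SolvesAPSP W α δ p Pr)
    (hm : ∀ ω, (Pr ω).leaves ≤ m) :
    ∃ w : Fin n → Fin n → ℕ, (∀ u v, w u v = 1 ∨ w u v = W) ∧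
      (P : ℝ) ^ 2 * (a : ℝ) ^ 3 * (2 * δ) ≤
        (P : ℝ) ^ 2 * expCost p Pr w + (P : ℝ) ^ 2 * (a : ℝ) ^ 2 + (m - 1) * (a : ℝ) ^ 3 := by
  classical
  obtain ⟨hp, hp1, hprob⟩ := hS
  have hcard : Fintype.card ((Fin P × Fin a) ⊕ ((Fin P × Fin a) ⊕ (Fin (2 * P) × Fin a))) ≤
      Fintype.card (Fin n) := by
    simp only [Fintype.card_sum, Fintype.card_prod, Fintype.card_fin]
    linarith
  obtain ⟨e⟩ := Function.Embedding.nonempty_of_card_le hcard
  have hW1 : 1 ≤ W := by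
    have : (2 : ℝ) < W := by linarith
    have : 2 < W := by exact_mod_cast this
    omega
  obtain ⟨x₀, hx₀⟩ := Finite.exists_max (fun x : Pt P a => expCost p Pr (wt e W x))
  refine ⟨wt e W x₀, wt_values x₀, ?_⟩
  refine avg_bound p hp hp1 Pr hm (fun x => input (wt e W x)) (input_anti hW1) input_dep
    (fun i j => (e (Sum.inl i), e (Sum.inr (Sum.inl j))))
    (fun ω x i j => Approx α (Pr ω) (wt e W x) (e (Sum.inl i)) (e (Sum.inr (Sum.inl j))))
    ?_ ?_ hx₀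
  · intro ω x x' i j h1 h2 h3 h4
    have h5 : (dist (wt e W x) (e (Sum.inl i)) (e (Sum.inr (Sum.inl j))) : ℝ) ≤ 2 := by
      exact_mod_cast dist_le_two (W := W) h3
    have h6 : (W : ℝ) ≤ dist (wt e W x') (e (Sum.inl i)) (e (Sum.inr (Sum.inl j))) := by
      exact_mod_cast le_dist (W := W) h4
    have h7 := h1.2
    have h8 := h2.1
    have h9 : α * (dist (wt e W x) (e (Sum.inl i)) (e (Sum.inr (Sum.inl j))) : ℝ) ≤ α * 2 := by
      gcongr
    linarith
  · intro x i j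
    refine hprob _ (wt_values x) _ _ ?_
    simp

theorem apsp_bound {n m W : ℕ} {δ α : ℝ} (hδ : 0 < δ) (hδ2 : δ ≤ 1 / 2)
    (hn : 10000 * (m : ℝ) ≤ δ ^ 3 * n ^ 2)
    (hα : 1 ≤ α) (hW : 2 * α < W) {Ω : Type} [Fintype Ω] (p : Ω → ℝ)
    (Pr : Ω → Prog (Fin n × Fin n) (Fin n × Fin n)) (hS : SolvesAPSP W α δ p Pr)
    (hm : ∀ ω, (Pr ω).leaves ≤ m) :
    ∃ w : Fin n → Fin n → ℕ, (∀ u v, w u v = 1 ∨ w u v = W) ∧
      δ ^ (5 / 2 : ℝ) * (n : ℝ) ^ 3 ≤ 400 * (m : ℝ) ^ (3 / 2 : ℝ) * expCost p Pr w := by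
  classical
  have hS' := hS
  obtain ⟨hp, hp1, hprob⟩ := hS'
  have hne : Nonempty Ω := by
    by_contra hcon
    rw [not_nonempty_iff] at hcon
    simp at hp1
  have hm1 : 1 ≤ m :=
    Nat.succ_le_of_lt (lt_of_lt_of_le (Pr (Classical.arbitrary Ω)).leaves_pos (hm _))
  have hm1' : (1 : ℝ) ≤ m := by exact_mod_cast hm1
  -- square roots
  set d := Real.sqrt δ with hd
  set μ := Real.sqrt m with hμ
  have hd2 : d ^ 2 = δ := Real.sq_sqrt hδ.le
  have hμ2 : μ ^ 2 = m := Real.sq_sqrt (by positivity)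
  have hd0 : 0 < d := Real.sqrt_pos.2 hδ
  have hμ0 : 0 < μ := Real.sqrt_pos.2 (by linarith)
  have hd5 : δ ^ (5 / 2 : ℝ) = d ^ 5 := by
    rw [hd, Real.sqrt_eq_rpow, ← Real.rpow_natCast, ← Real.rpow_mul hδ.le]
    norm_num
  have hμ3 : (m : ℝ) ^ (3 / 2 : ℝ) = μ ^ 3 := by
    rw [hμ, Real.sqrt_eq_rpow, ← Real.rpow_natCast, ← Real.rpow_mul (by positivity)]
    norm_num
  rw [hd5, hμ3]
  have hdle : d ^ 2 ≤ 1 / 2 := by rw [hd2]; exact hδ2
  have hμ1 : 1 ≤ μ ^ 2 := by rw [hμ2]; exact hm1'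
  -- the size of `n`
  have hn0 : (0 : ℝ) ≤ n := by positivity
  have hnd : 100 * μ ≤ n * d ^ 3 := by
    have h1 : (100 * μ) ^ 2 ≤ (n * d ^ 3) ^ 2 := by
      have h2 : (n * d ^ 3) ^ 2 = δ ^ 3 * n ^ 2 := by rw [← hd2]; ring
      rw [h2, mul_pow, hμ2]
      linarith
    exact le_of_sq_le_sq h1 (by positivity)
  -- the number of blocks
  set P := ⌈μ / d⌉₊ with hP
  have hP1 : μ / d ≤ P := Nat.le_ceil _
  have hs : 2 ≤ (μ / d) ^ 2 := by
    rw [div_pow, le_div_iff₀ (by positivity)]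
    nlinarith
  have hs0 : 0 < μ / d := by positivity
  have hs1 : 1 ≤ 0.7072 * (μ / d) := by
    have h1 : (1 : ℝ) ^ 2 ≤ (0.7072 * (μ / d)) ^ 2 := by
      rw [mul_pow]; nlinarith
    exact le_of_sq_le_sq h1 (by positivity)
  have hP2 : (P : ℝ) ≤ 1.7072 * (μ / d) := by
    have h1 : (P : ℝ) < μ / d + 1 := Nat.ceil_lt_add_one hs0.le
    linarith
  have hP0 : (0 : ℝ) < P := lt_of_lt_of_le hs0 hP1
  have hP0' : 0 < P := by exact_mod_cast hP0
  have hPd : (P : ℝ) * d ≤ 1.7072 * μ := by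
    calc (P : ℝ) * d ≤ 1.7072 * (μ / d) * d := by gcongr
      _ = 1.7072 * μ := by field_simp
  -- the size of the blocks
  set a := n / (4 * P) with ha
  have han : 4 * P * a ≤ n := Nat.mul_div_le n (4 * P)
  obtain ⟨w, hw, hmain⟩ := apsp_param (P := P) (a := a) han hα hW p Pr hS hm
  refine ⟨w, hw, ?_⟩
  set c := expCost p Pr w with hc
  have hmP : (m : ℝ) ≤ δ * P ^ 2 := by
    have h1 : (μ / d) ^ 2 ≤ (P : ℝ) ^ 2 := by gcongr
    rw [div_pow, hμ2, hd2, div_le_iff₀ hδ] at h1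
    linarith
  have ha0 : (0 : ℝ) ≤ a := by positivity
  have h1 : δ * (a : ℝ) ^ 3 - (a : ℝ) ^ 2 ≤ c := by
    have h2 : ((m : ℝ) - 1) * (a : ℝ) ^ 3 ≤ δ * P ^ 2 * (a : ℝ) ^ 3 := by
      have : (m : ℝ) - 1 ≤ δ * P ^ 2 := by linarith
      gcongr
    have h3 : (P : ℝ) ^ 2 * (δ * (a : ℝ) ^ 3 - (a : ℝ) ^ 2) ≤ (P : ℝ) ^ 2 * c := by
      linarith
    exact le_of_mul_le_mul_left h3 (by positivity)
  -- lower bound for `a`
  set z := n * d / (6.8288 * μ) with hz
  have hz1 : z - 1 ≤ a := by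
    have h2 : n < 4 * P * (a + 1) := Nat.lt_mul_div_succ n (by omega)
    have h3 : (n : ℝ) < 4 * P * (a + 1) := by exact_mod_cast h2
    have h4 : n * d ≤ 6.8288 * μ * (a + 1) := by
      calc n * d ≤ 4 * P * (a + 1) * d := by gcongr
        _ = 4 * (P * d) * (a + 1) := by ring
        _ ≤ 4 * (1.7072 * μ) * (a + 1) := by gcongr
        _ = 6.8288 * μ * (a + 1) := by ring
    have h5 : z ≤ a + 1 := by
      rw [hz, div_le_iff₀ (by positivity)]
      linarith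
    linarith
  have hz2 : 14.64 ≤ z * d ^ 2 := by
    rw [hz, div_mul_eq_mul_div, le_div_iff₀ (by positivity)]
    have : n * d * d ^ 2 = n * d ^ 3 := by ring
    rw [this]
    nlinarith
  have hz0 : 0 < z := by
    by_contra hcon
    push Not at hcon
    have : z * d ^ 2 ≤ 0 := mul_nonpos_of_nonpos_of_nonneg hcon (by positivity)
    linarith
  have hz3 : 29.28 ≤ z := by nlinarith
  have ha1 : 0.9658 * z ≤ a := by linarith
  have ha2 : 14.13 ≤ δ * a := by
    rw [← hd2]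
    nlinarith
  have ha3 : (0.9008 : ℝ) * z ^ 3 ≤ (a : ℝ) ^ 3 := by
    calc (0.9008 : ℝ) * z ^ 3 ≤ (0.9658 * z) ^ 3 := by
          rw [mul_pow]
          have : (0 : ℝ) ≤ z ^ 3 := by positivity
          nlinarith
      _ ≤ _ := by gcongr
  have h2 : 0.929 * δ * (a : ℝ) ^ 3 ≤ c := by
    have h3 : (a : ℝ) ^ 2 ≤ 0.071 * δ * (a : ℝ) ^ 3 := by
      calc (a : ℝ) ^ 2 = (a : ℝ) ^ 2 * 1 := by ring
        _ ≤ (a : ℝ) ^ 2 * (0.071 * (δ * a)) := by gcongr; linarith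
        _ = _ := by ring
    linarith
  have h3 : 0.8368 * d ^ 2 * z ^ 3 ≤ c := by
    have h5 : (0 : ℝ) ≤ d ^ 2 * z ^ 3 := by positivity
    have h6 : (0.8368 : ℝ) ≤ 0.929 * 0.9008 := by norm_num
    calc 0.8368 * d ^ 2 * z ^ 3 = 0.8368 * (d ^ 2 * z ^ 3) := by ring
      _ ≤ (0.929 * 0.9008) * (d ^ 2 * z ^ 3) := mul_le_mul_of_nonneg_right h6 h5
      _ = 0.929 * δ * (0.9008 * z ^ 3) := by rw [hd2]; ring
      _ ≤ 0.929 * δ * (a : ℝ) ^ 3 := mul_le_mul_of_nonneg_left ha3 (by positivity)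
      _ ≤ c := h2
  have h4 : z * (6.8288 * μ) = n * d := by
    rw [hz]; field_simp
  calc d ^ 5 * (n : ℝ) ^ 3 = d ^ 2 * (n * d) ^ 3 := by ring
    _ = d ^ 2 * (z * (6.8288 * μ)) ^ 3 := by rw [h4]
    _ = (6.8288 ^ 3 * d ^ 2 * z ^ 3) * μ ^ 3 := by ring
    _ ≤ (400 * (0.8368 * d ^ 2 * z ^ 3)) * μ ^ 3 := by
        have h5 : (0 : ℝ) ≤ d ^ 2 * z ^ 3 := by positivity
        have h6 : (6.8288 : ℝ) ^ 3 ≤ 400 * 0.8368 := by norm_num
        refine mul_le_mul_of_nonneg_right ?_ (by positivity)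
        calc (6.8288 : ℝ) ^ 3 * d ^ 2 * z ^ 3 = (6.8288 : ℝ) ^ 3 * (d ^ 2 * z ^ 3) := by ring
          _ ≤ (400 * 0.8368) * (d ^ 2 * z ^ 3) := mul_le_mul_of_nonneg_right h6 h5
          _ = _ := by ring
    _ ≤ (400 * c) * μ ^ 3 :=
        mul_le_mul_of_nonneg_right (mul_le_mul_of_nonneg_left h3 (by norm_num)) (by positivity)
    _ = _ := by ring

end Pool.Agent.H587R2.MRB
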