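import Pool.Agent.H587R2.MRB.Block

/-!
# Averaging over the blocks
-/

namespace Pool.Agent.H587R2.MRB

open Finset

open Classical in
theorem avg_bound {ι O : Type} {P a : ℕ} {Ω : Type} [Fintype Ω] (p : Ω → ℝ) (hp : ∀ ω, 0 ≤ p ω)
    (hp1 : ∑ ω, p ω = 1) (Pr : Ω → Prog ι O) {m : ℕ} (hm : ∀ ω, (Pr ω).leaves ≤ m)
    (S : Pt P a → (ι ⊕ ℕ → ℝ)) (hS : Antitone S)
    (hdep : ∀ R, (∀ A B B', S (A, B) R = S (A, B') R) ∨ (∀ A A' B, S (A, B) R = S (A', B) R))
    (out : Fin P × Fin a → Fin P × Fin a → O) {δ : ℝ}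
    (good : Ω → Pt P a → Fin P × Fin a → Fin P × Fin a → Prop)
    (hgood : ∀ ω x x' i j, good ω x i j → good ω x' i j → (∃ y, x.1 i y ∧ x.2 y j) →
      (∀ y, x'.1 i y → x'.2 y j → False) →
      (Pr ω).answer (S x) (out i j) < (Pr ω).answer (S x') (out i j))
    (hprob : ∀ x i j, 1 / 2 + δ ≤ ∑ ω ∈ univ.filter (fun ω => good ω x i j), p ω)
    {c : ℝ} (hc : ∀ x, ∑ ω, p ω * (Pr ω).cost (S x) ≤ c) :
    (P : ℝ) ^ 2 * (a : ℝ) ^ 3 * (2 * δ) ≤
      (P : ℝ) ^ 2 * c + (P : ℝ) ^ 2 * (a : ℝ) ^ 2 + (m - 1) * (a : ℝ) ^ 3 := by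
  -- quadruples
  let Q := Σ _ : Fin a × Fin a × Fin a, Finset (Fin a)
  have hQ : Fintype.card Q = a ^ 3 * 2 ^ a := by
    simp only [Q]
    rw [Fintype.card_sigma]
    simp only [Fintype.card_finset, Fintype.card_fin, sum_const, card_univ, Fintype.card_prod,
      smul_eq_mul]
    ring
  let G : Fin P × Fin P → Ω → Finset Q := fun r ω => univ.filter fun x : Q =>
    good ω (tau r.1 r.2 x.1.1 x.1.2.1 x.1.2.2) (r.1, x.1.1) (r.2, x.1.2.1) ∧
      good ω (zeta r.1 r.2 x.1.1 x.1.2.1 x.2) (r.1, x.1.1) (r.2, x.1.2.1)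
  have hm1 : ∀ ω : Ω, 1 ≤ m := fun ω =>
    Nat.succ_le_of_lt (lt_of_lt_of_le (Pr ω).leaves_pos (hm ω))
  -- upper bound for every program
  have hup : ∀ ω, ((∑ r, (G r ω).card : ℕ) : ℝ) ≤
      2 ^ a * ∑ r : Fin P × Fin P, ((Pr ω).cost (S (base P a (key P r.1 r.2))) : ℝ) +
        P ^ 2 * a ^ 2 * 2 ^ a + (m - 1) * (a ^ 3 * 2 ^ a) := by
    intro ω
    have h1 : ∀ r : Fin P × Fin P, (G r ω).card ≤
        (2 ^ a * (Pr ω).cost (S (base P a (key P r.1 r.2))) + a * a * 2 ^ a) +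
        (if (Pr ω).path (S (base P a (key P r.1 r.2))) ≠
          (Pr ω).path (S (base P a (key P r.1 r.2 + 1))) then a ^ 3 * 2 ^ a else 0) := by
      intro r
      split_ifs with h
      · have : (G r ω).card ≤ Fintype.card Q := card_le_univ _
        rw [hQ] at this
        exact this.trans (Nat.le_add_left _ _)
      · rw [not_not] at h
        have h2 := block_bound (Pr ω) S hS hdep r.1 r.2 h (fun i j => out (r.1, i) (r.2, j))
        rw [add_zero]
        refine le_trans (card_le_card ?_) h2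
        intro x hx
        rw [mem_filter] at hx ⊢
        refine ⟨mem_univ _, hgood ω _ _ _ _ hx.2.1 hx.2.2 ?_ ?_⟩
        · exact tau_true r.1 r.2 _ _ _
        · intro y hy hy'
          exact zeta_false r.1 r.2 _ _ _ y hy hy'
    have h2 : ∑ r : Fin P × Fin P, (if (Pr ω).path (S (base P a (key P r.1 r.2))) ≠
          (Pr ω).path (S (base P a (key P r.1 r.2 + 1))) then a ^ 3 * 2 ^ a else 0) ≤
        (m - 1) * (a ^ 3 * 2 ^ a) := by
      rw [← sum_filter, sum_const, smul_eq_mul]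
      refine Nat.mul_le_mul_right _ ?_
      have h3 := (card_changes (Pr ω) S hS).trans (hm ω)
      refine Nat.le_sub_of_add_le ?_
      refine le_trans (Nat.add_le_add_right (le_of_eq (congrArg Finset.card ?_)) 1) h3
      ext r
      simp only [mem_filter]
    have h3 : ∑ r, (G r ω).card ≤
        2 ^ a * ∑ r : Fin P × Fin P, (Pr ω).cost (S (base P a (key P r.1 r.2))) +
          P ^ 2 * a ^ 2 * 2 ^ a + (m - 1) * (a ^ 3 * 2 ^ a) := by
      calc ∑ r, (G r ω).card ≤ ∑ r : Fin P × Fin P, _ := sum_le_sum fun r _ => h1 r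
        _ = ∑ r : Fin P × Fin P,
              (2 ^ a * (Pr ω).cost (S (base P a (key P r.1 r.2))) + a * a * 2 ^ a) +
            ∑ r : Fin P × Fin P, (if (Pr ω).path (S (base P a (key P r.1 r.2))) ≠
              (Pr ω).path (S (base P a (key P r.1 r.2 + 1))) then a ^ 3 * 2 ^ a else 0) :=
            sum_add_distrib
        _ ≤ _ := by
            refine add_le_add (le_of_eq ?_) h2
            rw [sum_add_distrib, mul_sum]
            simp only [sum_const, card_univ, Fintype.card_prod, Fintype.card_fin, smul_eq_mul]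
            ring
    have h4 : ((m - 1 : ℕ) : ℝ) = (m : ℝ) - 1 := by
      rw [Nat.cast_sub (hm1 ω)]; simp
    calc ((∑ r, (G r ω).card : ℕ) : ℝ) ≤ ((2 ^ a *
          ∑ r : Fin P × Fin P, (Pr ω).cost (S (base P a (key P r.1 r.2))) +
          P ^ 2 * a ^ 2 * 2 ^ a + (m - 1) * (a ^ 3 * 2 ^ a) : ℕ) : ℝ) := by exact_mod_cast h3
      _ = _ := by
          rw [← h4]
          push_cast
          ring
  -- lower bound on the average
  have hlow : (P : ℝ) ^ 2 * (a ^ 3 * 2 ^ a) * (2 * δ) ≤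
      ∑ ω, p ω * ((∑ r, (G r ω).card : ℕ) : ℝ) := by
    have h1 : ∀ (r : Fin P × Fin P) (x : Q),
        2 * δ ≤ ∑ ω, p ω * (if x ∈ G r ω then (1 : ℝ) else 0) := by
      intro r x
      have ha := hprob (tau r.1 r.2 x.1.1 x.1.2.1 x.1.2.2) (r.1, x.1.1) (r.2, x.1.2.1)
      have hb := hprob (zeta r.1 r.2 x.1.1 x.1.2.1 x.2) (r.1, x.1.1) (r.2, x.1.2.1)
      rw [sum_filter] at ha hb
      have h2 : ∀ ω, (if good ω (tau r.1 r.2 x.1.1 x.1.2.1 x.1.2.2) (r.1, x.1.1) (r.2, x.1.2.1)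
          then p ω else 0) +
          (if good ω (zeta r.1 r.2 x.1.1 x.1.2.1 x.2) (r.1, x.1.1) (r.2, x.1.2.1) then p ω
          else 0) - p ω ≤ p ω * (if x ∈ G r ω then (1 : ℝ) else 0) := by
        intro ω
        have hpω := hp ω
        by_cases hA : good ω (tau r.1 r.2 x.1.1 x.1.2.1 x.1.2.2) (r.1, x.1.1) (r.2, x.1.2.1)
        · by_cases hC : good ω (zeta r.1 r.2 x.1.1 x.1.2.1 x.2) (r.1, x.1.1) (r.2, x.1.2.1)
          · have : x ∈ G r ω := by
              simp only [G, mem_filter, mem_univ, true_and]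
              exact ⟨hA, hC⟩
            simp only [hA, hC, this, if_true]
            linarith
          · simp only [hA, hC, if_true, if_false]
            split_ifs <;> linarith
        · simp only [hA, if_false]
          by_cases hC : good ω (zeta r.1 r.2 x.1.1 x.1.2.1 x.2) (r.1, x.1.1) (r.2, x.1.2.1)
          · simp only [hC, if_true]
            split_ifs <;> linarith
          · simp only [hC, if_false]
            split_ifs <;> linarith
      have h3 := sum_le_sum fun ω (_ : ω ∈ (univ : Finset Ω)) => h2 ω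
      rw [sum_sub_distrib, sum_add_distrib, hp1] at h3
      linarith
    have h4 : ∀ r : Fin P × Fin P, ((a : ℝ) ^ 3 * 2 ^ a) * (2 * δ) ≤
        ∑ ω, p ω * ((G r ω).card : ℝ) := by
      intro r
      have h5 : ∀ ω, ((G r ω).card : ℝ) = ∑ x : Q, (if x ∈ G r ω then (1 : ℝ) else 0) := by
        intro ω
        rw [← sum_filter, sum_const, nsmul_eq_mul, mul_one]
        congr 2
        ext x
        simp
      calc ((a : ℝ) ^ 3 * 2 ^ a) * (2 * δ) = ∑ x : Q, 2 * δ := by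
            rw [sum_const, nsmul_eq_mul, card_univ, hQ]; push_cast; ring
        _ ≤ ∑ x : Q, ∑ ω, p ω * (if x ∈ G r ω then (1 : ℝ) else 0) :=
            sum_le_sum fun x _ => h1 r x
        _ = ∑ ω, ∑ x : Q, p ω * (if x ∈ G r ω then (1 : ℝ) else 0) := sum_comm
        _ = ∑ ω, p ω * ((G r ω).card : ℝ) := by
            refine sum_congr rfl fun ω _ => ?_
            rw [h5, mul_sum]
    calc (P : ℝ) ^ 2 * (a ^ 3 * 2 ^ a) * (2 * δ) =
          ∑ _r : Fin P × Fin P, ((a : ℝ) ^ 3 * 2 ^ a) * (2 * δ) := by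
          rw [sum_const, nsmul_eq_mul, card_univ, Fintype.card_prod, Fintype.card_fin]
          push_cast; ring
      _ ≤ ∑ r : Fin P × Fin P, ∑ ω, p ω * ((G r ω).card : ℝ) := sum_le_sum fun r _ => h4 r
      _ = ∑ ω, ∑ r : Fin P × Fin P, p ω * ((G r ω).card : ℝ) := sum_comm
      _ = ∑ ω, p ω * ((∑ r, (G r ω).card : ℕ) : ℝ) := by
          refine sum_congr rfl fun ω _ => ?_
          rw [← mul_sum]; push_cast; ring
  have h2a : (0 : ℝ) < 2 ^ a := by positivity
  have hfin : ((P : ℝ) ^ 2 * (a : ℝ) ^ 3 * (2 * δ)) * 2 ^ a ≤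
      ((P : ℝ) ^ 2 * c + (P : ℝ) ^ 2 * (a : ℝ) ^ 2 + (m - 1) * (a : ℝ) ^ 3) * 2 ^ a := by
    calc ((P : ℝ) ^ 2 * (a : ℝ) ^ 3 * (2 * δ)) * 2 ^ a
        = (P : ℝ) ^ 2 * (a ^ 3 * 2 ^ a) * (2 * δ) := by ring
      _ ≤ ∑ ω, p ω * ((∑ r, (G r ω).card : ℕ) : ℝ) := hlow
      _ ≤ ∑ ω, p ω * (2 ^ a *
          ∑ r : Fin P × Fin P, ((Pr ω).cost (S (base P a (key P r.1 r.2))) : ℝ) +
          P ^ 2 * a ^ 2 * 2 ^ a + (m - 1) * (a ^ 3 * 2 ^ a)) :=
          sum_le_sum fun ω _ => mul_le_mul_of_nonneg_left (hup ω) (hp ω)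
      _ = 2 ^ a * ∑ r : Fin P × Fin P,
            ∑ ω, p ω * ((Pr ω).cost (S (base P a (key P r.1 r.2))) : ℝ) +
          (P ^ 2 * a ^ 2 * 2 ^ a + (m - 1) * (a ^ 3 * 2 ^ a)) * ∑ ω, p ω := by
          rw [sum_comm, mul_sum, mul_sum, ← sum_add_distrib]
          refine sum_congr rfl fun ω _ => ?_
          rw [← mul_sum]; ring
      _ ≤ 2 ^ a * (P ^ 2 * c) + (P ^ 2 * a ^ 2 * 2 ^ a + (m - 1) * (a ^ 3 * 2 ^ a)) := by
          rw [hp1, mul_one]
          refine add_le_add_left (mul_le_mul_of_nonneg_left ?_ h2a.le) _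
          calc ∑ r : Fin P × Fin P,
                ∑ ω, p ω * ((Pr ω).cost (S (base P a (key P r.1 r.2))) : ℝ)
              ≤ ∑ _r : Fin P × Fin P, c := sum_le_sum fun r _ => hc _
            _ = P ^ 2 * c := by
              rw [sum_const, nsmul_eq_mul, card_univ, Fintype.card_prod, Fintype.card_fin]
              push_cast; ring
      _ = _ := by ring
  exact le_of_mul_le_mul_right hfin h2a

end Pool.Agent.H587R2.MRB
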