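import Pool.Agent.H587R2.MRB.Core

/-!
# Counting in a block
-/

set_option linter.unusedSectionVars false

namespace Pool.Agent.H587R2.MRB

open Finset

open Classical in
theorem Points.block_count {ι O X I J K : Type} [Fintype I] [Fintype J] [Fintype K] [Preorder X]
    {τ : I → J → K → X} {ζ : I → J → Finset K → X} (hX : Points τ ζ) (P : Prog ι O)
    (S : X → (ι ⊕ ℕ → ℝ)) (hS : ∀ R, Monotone fun x => S x R)
    (hP : ∀ x y, P.path (S x) = P.path (S y)) (x₀ : X)
    (h0 : ∀ R i j k, ¬ Mixed τ ζ (fun x => S x R) i j k) (o : I → J → O) :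
    (univ.filter fun q : Σ _ : I × J × K, Finset K =>
      P.answer (S (τ q.1.1 q.1.2.1 q.1.2.2)) (o q.1.1 q.1.2.1) <
        P.answer (S (ζ q.1.1 q.1.2.1 q.2)) (o q.1.1 q.1.2.1)).card ≤
      2 ^ Fintype.card K * P.cost (S x₀) +
        Fintype.card I * Fintype.card J * 2 ^ Fintype.card K := by
  obtain ⟨A, hA1, hA2⟩ := P.exists_places hX S hS hP x₀
  let W : I → J → X → ℝ := fun i j x => P.answer (S x) (o i j)
  let s : I × J → Finset (I × J × K) := fun p =>
    (univ.filter fun k => ¬ Mixed τ ζ (W p.1 p.2) p.1 p.2 k).image fun k => (p.1, p.2, k)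
  let U : Finset (Σ _ : I × J × K, Finset K) := univ.biUnion fun p : I × J =>
    (s p).sigma fun q => dset τ ζ (W p.1 p.2) q.1 q.2.1 q.2.2
  have hU : U.card ≤ Fintype.card I * Fintype.card J * 2 ^ Fintype.card K := by
    refine card_biUnion_le.trans ?_
    calc ∑ p : I × J, ((s p).sigma fun q => dset τ ζ (W p.1 p.2) q.1 q.2.1 q.2.2).card
        ≤ ∑ _p : I × J, 2 ^ Fintype.card K := by
          refine sum_le_sum fun p _ => ?_
          rw [card_sigma]
          refine hX.sum_le (P.answer_mono S hS hP (o p.1 p.2)) (s p) ?_ ?_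
          · intro q hq
            obtain ⟨k, hk, rfl⟩ := mem_image.1 hq
            exact (mem_filter.1 hk).2
          · intro q hq q' hq' hne hk _
            obtain ⟨k, _, rfl⟩ := mem_image.1 hq
            obtain ⟨k', _, rfl⟩ := mem_image.1 hq'
            simp only at hk
            exact hne (by rw [hk])
      _ = _ := by rw [sum_const, card_univ, Fintype.card_prod, smul_eq_mul]
  have hsub : (univ.filter fun q : Σ _ : I × J × K, Finset K =>
      P.answer (S (τ q.1.1 q.1.2.1 q.1.2.2)) (o q.1.1 q.1.2.1) <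
        P.answer (S (ζ q.1.1 q.1.2.1 q.2)) (o q.1.1 q.1.2.1)) ⊆ A ∪ U := by
    rintro ⟨⟨i, j, k⟩, T⟩ hq
    rw [mem_filter] at hq
    have hT : T ∈ dset τ ζ (W i j) i j k := mem_dset.2 hq.2
    by_cases hm : Mixed τ ζ (W i j) i j k
    · rcases hA2 (o i j) i j k T hT hm with h | ⟨R, _, hR⟩
      · exact mem_union_left _ h
      · exact absurd hR (h0 R i j k)
    · refine mem_union_right _ (mem_biUnion.2 ⟨(i, j), mem_univ _, ?_⟩)
      rw [mem_sigma]
      exact ⟨mem_image.2 ⟨k, mem_filter.2 ⟨mem_univ _, hm⟩, rfl⟩, hT⟩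
  exact (card_le_card hsub).trans ((card_union_le _ _).trans (add_le_add hA1 hU))

/-- Pairs of Boolean matrices, ordered by the reversed order. -/
abbrev Pt (P a : ℕ) : Type :=
  (Fin P × Fin a → Fin (2 * P) × Fin a → Prop) × (Fin (2 * P) × Fin a → Fin P × Fin a → Prop)

variable {P a : ℕ}

/-- The number of the block `(p, q)`. -/
def key (P p q : ℕ) : ℕ := (p + (P - 1 - q)) * P + p

theorem key_lt {p q p' q' s : ℕ} (_hp : p < P) (hq : q < P) (_hp' : p' < P) (hq' : q' < P)
    (h1 : s = p + q') (h2 : s = p' + q) (hne : s ≠ p + q) :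
    ¬ (key P p q' < key P p q ∧ key P p' q < key P p q) := by
  rintro ⟨h3, h4⟩
  unfold key at h3 h4
  rcases Nat.lt_or_gt_of_ne (show q ≠ q' from fun h => hne (by rw [h1, h])) with h5 | h5
  · -- `q < q'`, so `p < p'`
    have h6 : p < p' := by omega
    have h7 : (p + (P - 1 - q)) * P ≤ (p' + (P - 1 - q)) * P := Nat.mul_le_mul_right _ (by omega)
    omega
  · have h6 : p + (P - 1 - q) ≤ p + (P - 1 - q') := by omega
    have h7 := Nat.mul_le_mul_right P h6
    omega

theorem key_inj {p q p' q' : ℕ} (hp : p < P) (hq : q < P) (hp' : p' < P) (hq' : q' < P)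
    (h : key P p q = key P p' q') : p = p' ∧ q = q' := by
  unfold key at h
  have hP : 0 < P := by omega
  have h1 : p = p' := by
    have := congrArg (· % P) h
    simpa [Nat.add_mod, Nat.mod_eq_of_lt hp, Nat.mod_eq_of_lt hp'] using this
  subst h1
  have h2 : (p + (P - 1 - q)) * P = (p + (P - 1 - q')) * P := by omega
  have h3 := Nat.eq_of_mul_eq_mul_right hP h2
  exact ⟨rfl, by omega⟩

/-- The points of the chain. -/
def base (P a b : ℕ) : Pt P a :=
  (fun x y => ∃ q < P, y.1.val = x.1.val + q ∧ key P x.1 q < b,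
   fun y z => ∃ p < P, y.1.val = p + z.1.val ∧ key P p z.1 < b)

/-- The true points of the block `(p, q)`. -/
def tau (p q : Fin P) (i j k : Fin a) : Pt P a :=
  (fun x y => (base P a (key P p q)).1 x y ∨ (x = (p, i) ∧ y.1.val = p.val + q.val ∧ y.2 = k),
   fun y z => (base P a (key P p q)).2 y z ∨ (z = (q, j) ∧ y.1.val = p.val + q.val ∧ y.2 = k))

/-- The false points of the block `(p, q)`. -/
def zeta (p q : Fin P) (i j : Fin a) (T : Finset (Fin a)) : Pt P a :=
  (fun x y => (base P a (key P p q)).1 x y ∨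
      (x.1 = p ∧ y.1.val = p.val + q.val ∧ (x.2 ≠ i ∨ y.2 ∈ T)),
   fun y z => (base P a (key P p q)).2 y z ∨
      (z.1 = q ∧ y.1.val = p.val + q.val ∧ (z.2 ≠ j ∨ y.2 ∉ T)))

theorem base_mono {b b' : ℕ} (h : b ≤ b') : base P a b ≤ base P a b' :=
  ⟨fun _ _ ⟨q, h1, h2, h3⟩ => ⟨q, h1, h2, h3.trans_le h⟩,
   fun _ _ ⟨q, h1, h2, h3⟩ => ⟨q, h1, h2, h3.trans_le h⟩⟩

theorem base_le_tau (p q : Fin P) (i j k : Fin a) :
    base P a (key P p q) ≤ tau p q i j k :=
  ⟨fun _ _ h => Or.inl h, fun _ _ h => Or.inl h⟩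

theorem base_le_zeta (p q : Fin P) (i j : Fin a) (T : Finset (Fin a)) :
    base P a (key P p q) ≤ zeta p q i j T :=
  ⟨fun _ _ h => Or.inl h, fun _ _ h => Or.inl h⟩

theorem tau_le_base (p q : Fin P) (i j k : Fin a) :
    tau p q i j k ≤ base P a (key P p q + 1) := by
  constructor
  · rintro x y (h | ⟨rfl, h1, -⟩)
    · exact (base_mono (Nat.le_succ _)).1 x y h
    · exact ⟨q, q.2, h1, Nat.lt_succ_self _⟩
  · rintro y z (h | ⟨rfl, h1, -⟩)
    · exact (base_mono (Nat.le_succ _)).2 y z h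
    · exact ⟨p, p.2, h1, Nat.lt_succ_self _⟩

theorem zeta_le_base (p q : Fin P) (i j : Fin a) (T : Finset (Fin a)) :
    zeta p q i j T ≤ base P a (key P p q + 1) := by
  constructor
  · rintro x y (h | ⟨h0, h1, -⟩)
    · exact (base_mono (Nat.le_succ _)).1 x y h
    · exact ⟨q, q.2, by rw [h0]; exact h1, by rw [h0]; exact Nat.lt_succ_self _⟩
  · rintro y z (h | ⟨h0, h1, -⟩)
    · exact (base_mono (Nat.le_succ _)).2 y z h
    · exact ⟨p, p.2, by rw [h0]; exact h1, by rw [h0]; exact Nat.lt_succ_self _⟩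

theorem tau_true (p q : Fin P) (i j k : Fin a) :
    ∃ y, (tau p q i j k).1 (p, i) y ∧ (tau p q i j k).2 y (q, j) := by
  refine ⟨(⟨p.val + q.val, by have := p.2; have := q.2; omega⟩, k), ?_, ?_⟩
  · exact Or.inr ⟨rfl, rfl, rfl⟩
  · exact Or.inr ⟨rfl, rfl, rfl⟩

theorem zeta_false (p q : Fin P) (i j : Fin a) (T : Finset (Fin a)) (y : Fin (2 * P) × Fin a)
    (h1 : (zeta p q i j T).1 (p, i) y) (h2 : (zeta p q i j T).2 y (q, j)) : False := by
  rcases h1 with ⟨q', hq', h1, h3⟩ | ⟨-, h1, h3⟩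
  · have hne : y.1.val ≠ p.val + q.val := by
      intro hy
      have : q' = q.val := by simp only at h1; omega
      subst this
      exact lt_irrefl _ h3
    rcases h2 with ⟨p', hp', h2, h4⟩ | ⟨-, h2, -⟩
    · exact key_lt p.2 q.2 hp' hq' h1 h2 hne ⟨h3, h4⟩
    · exact hne h2
  · rcases h2 with ⟨p', hp', h2, h4⟩ | ⟨-, -, h4⟩
    · simp only at h2
      have : p' = p.val := by omega
      subst this
      exact lt_irrefl _ h4
    · simp only [ne_eq, not_true_eq_false, false_or] at h3 h4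
      exact h4 h3

theorem tau_le_zeta_diff (p q : Fin P) (i i' j j' k : Fin a) (T : Finset (Fin a)) (hi : i ≠ i')
    (hj : j ≠ j') : tau p q i' j' k ≤ zeta p q i j T := by
  constructor
  · rintro x y (h | ⟨rfl, h1, h2⟩)
    · exact Or.inl h
    · exact Or.inr ⟨rfl, h1, Or.inl (Ne.symm hi)⟩
  · rintro y z (h | ⟨rfl, h1, h2⟩)
    · exact Or.inl h
    · exact Or.inr ⟨rfl, h1, Or.inl (Ne.symm hj)⟩

theorem tau_le_zeta_row (p q : Fin P) (i j j' k : Fin a) (T : Finset (Fin a))
    (hj : j ≠ j') (hk : k ∈ T) : tau p q i j' k ≤ zeta p q i j T := by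
  constructor
  · rintro x y (h | ⟨rfl, h1, h2⟩)
    · exact Or.inl h
    · exact Or.inr ⟨rfl, h1, Or.inr (by rw [h2]; exact hk)⟩
  · rintro y z (h | ⟨rfl, h1, h2⟩)
    · exact Or.inl h
    · exact Or.inr ⟨rfl, h1, Or.inl (Ne.symm hj)⟩

theorem tau_le_zeta_col (p q : Fin P) (i i' j k : Fin a) (T : Finset (Fin a))
    (hi : i ≠ i') (hk : k ∉ T) : tau p q i' j k ≤ zeta p q i j T := by
  constructor
  · rintro x y (h | ⟨rfl, h1, h2⟩)
    · exact Or.inl h
    · exact Or.inr ⟨rfl, h1, Or.inl (Ne.symm hi)⟩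
  · rintro y z (h | ⟨rfl, h1, h2⟩)
    · exact Or.inl h
    · exact Or.inr ⟨rfl, h1, Or.inr (by rw [h2]; exact hk)⟩

theorem tau_le_zeta_fst (p q : Fin P) (i j k : Fin a) (T : Finset (Fin a))
    (hk : k ∈ T) : (tau p q i j k).1 ≤ (zeta p q i j T).1 := by
  rintro x y (h | ⟨rfl, h1, h2⟩)
  · exact Or.inl h
  · exact Or.inr ⟨rfl, h1, Or.inr (by rw [h2]; exact hk)⟩

theorem tau_le_zeta_snd (p q : Fin P) (i j k : Fin a) (T : Finset (Fin a))
    (hk : k ∉ T) : (tau p q i j k).2 ≤ (zeta p q i j T).2 := by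
  rintro y z (h | ⟨rfl, h1, h2⟩)
  · exact Or.inl h
  · exact Or.inr ⟨rfl, h1, Or.inr (by rw [h2]; exact hk)⟩

open Classical in
/-- The bound in a block in which the outcomes of the tests do not change. -/
theorem block_bound {ι O : Type} (Pr : Prog ι O) (S : Pt P a → (ι ⊕ ℕ → ℝ)) (hS : Antitone S)
    (hdep : ∀ R, (∀ A B B', S (A, B) R = S (A, B') R) ∨ (∀ A A' B, S (A, B) R = S (A', B) R))
    (p q : Fin P) (hP : Pr.path (S (base P a (key P p q))) =
      Pr.path (S (base P a (key P p q + 1)))) (o : Fin a → Fin a → O) :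
    (univ.filter fun x : Σ _ : Fin a × Fin a × Fin a, Finset (Fin a) =>
      Pr.answer (S (tau p q x.1.1 x.1.2.1 x.1.2.2)) (o x.1.1 x.1.2.1) <
        Pr.answer (S (zeta p q x.1.1 x.1.2.1 x.2)) (o x.1.1 x.1.2.1)).card ≤
      2 ^ a * Pr.cost (S (base P a (key P p q))) + a * a * 2 ^ a := by
  let X := (Set.Icc (base P a (key P p q)) (base P a (key P p q + 1)))ᵒᵈ
  let τ : Fin a → Fin a → Fin a → X := fun i j k =>
    OrderDual.toDual ⟨tau p q i j k, base_le_tau _ _ _ _ _, tau_le_base _ _ _ _ _⟩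
  let ζ : Fin a → Fin a → Finset (Fin a) → X := fun i j T =>
    OrderDual.toDual ⟨zeta p q i j T, base_le_zeta _ _ _ _ _, zeta_le_base _ _ _ _ _⟩
  let S' : X → (ι ⊕ ℕ → ℝ) := fun x => S (OrderDual.ofDual x).1
  have hpts : Points τ ζ :=
    { diff := fun i i' j j' k T hi hj => tau_le_zeta_diff p q i i' j j' k T hi hj
      row := fun i j j' k T hj hk => tau_le_zeta_row p q i j j' k T hj hk
      col := fun i i' j k T hi hk => tau_le_zeta_col p q i i' j k T hi hk }
  have hS' : ∀ R, Monotone fun x => S' x R := fun R x y hxy => hS hxy R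
  have hbase : ∀ x : X, Pr.path (S' x) = Pr.path (S (base P a (key P p q + 1))) := fun x =>
    Pr.path_between (hS (OrderDual.ofDual x).2.2) (hS (OrderDual.ofDual x).2.1) hP.symm
  have hpath : ∀ x y : X, Pr.path (S' x) = Pr.path (S' y) := fun x y =>
    (hbase x).trans (hbase y).symm
  let x₀ : X := OrderDual.toDual ⟨base P a (key P p q), le_refl _, base_mono (Nat.le_succ _)⟩
  have h0 : ∀ R i j k, ¬ Mixed τ ζ (fun x => S' x R) i j k := by
    rintro R i j k ⟨⟨T, hT, hk⟩, T', hT', hk'⟩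
    rw [mem_dset] at hT hT'
    change S (tau p q i j k) R < S (zeta p q i j T) R at hT
    change S (tau p q i j k) R < S (zeta p q i j T') R at hT'
    rcases hdep R with h | h
    · have h1 : S (zeta p q i j T) R ≤ S (tau p q i j k) R := by
        have e1 := h (zeta p q i j T).1 (zeta p q i j T).2 (tau p q i j k).2
        have e2 : S ((zeta p q i j T).1, (tau p q i j k).2) ≤
            S ((tau p q i j k).1, (tau p q i j k).2) :=
          hS ⟨tau_le_zeta_fst p q i j k T hk, le_refl _⟩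
        calc S (zeta p q i j T) R = S ((zeta p q i j T).1, (tau p q i j k).2) R := e1
          _ ≤ S ((tau p q i j k).1, (tau p q i j k).2) R := e2 R
          _ = S (tau p q i j k) R := rfl
      linarith
    · have h1 : S (zeta p q i j T') R ≤ S (tau p q i j k) R := by
        have e1 := h (zeta p q i j T').1 (tau p q i j k).1 (zeta p q i j T').2
        have e2 : S ((tau p q i j k).1, (zeta p q i j T').2) ≤
            S ((tau p q i j k).1, (tau p q i j k).2) :=
          hS ⟨le_refl _, tau_le_zeta_snd p q i j k T' hk'⟩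
        calc S (zeta p q i j T') R = S ((tau p q i j k).1, (zeta p q i j T').2) R := e1
          _ ≤ S ((tau p q i j k).1, (tau p q i j k).2) R := e2 R
          _ = S (tau p q i j k) R := rfl
      linarith
  have h := hpts.block_count Pr S' hS' hpath x₀ h0 o
  rw [Fintype.card_fin] at h
  exact h

/-- The number of blocks in which the outcomes of the tests change. -/
theorem card_changes {ι O : Type} (Pr : Prog ι O) (S : Pt P a → (ι ⊕ ℕ → ℝ)) (hS : Antitone S) :
    ((univ : Finset (Fin P × Fin P)).filter fun x =>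
      Pr.path (S (base P a (key P x.1 x.2))) ≠
        Pr.path (S (base P a (key P x.1 x.2 + 1)))).card + 1 ≤ Pr.leaves := by
  classical
  set C := (univ : Finset (Fin P × Fin P)).filter fun x =>
      Pr.path (S (base P a (key P x.1 x.2))) ≠
        Pr.path (S (base P a (key P x.1 x.2 + 1))) with hC
  -- `N` is larger than all keys
  obtain ⟨N, hN⟩ : ∃ N, ∀ x : Fin P × Fin P, key P x.1 x.2 < N := by
    refine ⟨(univ.sup fun x : Fin P × Fin P => key P x.1 x.2) + 1, fun x => ?_⟩
    exact Nat.lt_succ_of_le (Finset.le_sup (f := fun x : Fin P × Fin P => key P x.1 x.2)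
      (mem_univ x))
  have key' : ∀ b b' : ℕ, b < b' →
      Pr.path (S (base P a b)) = Pr.path (S (base P a b')) →
      Pr.path (S (base P a b)) = Pr.path (S (base P a (b + 1))) := by
    intro b b' hb h
    have h1 := Pr.path_between (hS (base_mono (a := a) (P := P) hb))
      (hS (base_mono (a := a) (P := P) (Nat.le_succ b))) h.symm
    exact h.trans h1.symm
  have h1 : (C.image fun x => Pr.path (S (base P a (key P x.1 x.2)))).card = C.card := by
    refine card_image_of_injOn ?_
    intro x hx y hy h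
    rw [mem_coe, hC, mem_filter] at hx hy
    simp only at h
    rcases lt_trichotomy (key P x.1 x.2) (key P y.1 y.2) with h2 | h2 | h2
    · exact absurd (key' _ _ h2 h) hx.2
    · obtain ⟨h3, h4⟩ := key_inj x.1.2 x.2.2 y.1.2 y.2.2 h2
      exact Prod.ext (Fin.ext h3) (Fin.ext h4)
    · exact absurd (key' _ _ h2 h.symm) hy.2
  have h2 : Pr.path (S (base P a N)) ∉ C.image fun x => Pr.path (S (base P a (key P x.1 x.2))) := by
    intro h3
    obtain ⟨x, hx, h4⟩ := mem_image.1 h3
    rw [hC, mem_filter] at hx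
    exact hx.2 (key' _ _ (hN x) h4)
  rw [← h1, ← card_insert_of_notMem h2]
  refine le_trans (card_le_card ?_) Pr.card_paths_le
  intro l hl
  rw [mem_insert] at hl
  rcases hl with rfl | hl
  · exact Pr.path_mem _
  · obtain ⟨x, _, rfl⟩ := mem_image.1 hl
    exact Pr.path_mem _

end Pool.Agent.H587R2.MRB
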