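import Pool.Agent.H587R2.MRB.Defs

/-!
# Mixed triples and wires
-/

set_option linter.unusedSectionVars false

namespace Pool.Agent.H587R2.MRB

open Finset

open Classical in
/-- The tournament lemma. -/
theorem tournament {V K : Type} [Fintype K] (s : Finset V) (κ : V → K)
    (D : V → Finset (Finset K)) (hκ : ∀ x ∈ s, ∀ y ∈ s, x ≠ y → κ x ≠ κ y)
    (h1 : ∀ x ∈ s, ∀ S ∈ D x, ∀ S' ∈ D x, (κ x ∈ S ↔ κ x ∈ S'))
    (h2 : ∀ x ∈ s, ∀ y ∈ s, x ≠ y → (∀ S ∈ D x, ∀ S' ∈ D x, (κ y ∈ S ↔ κ y ∈ S')) ∨
      (∀ S ∈ D y, ∀ S' ∈ D y, (κ x ∈ S ↔ κ x ∈ S'))) :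
    ∑ x ∈ s, (D x).card ≤ 2 ^ Fintype.card K := by
  let T : V → Finset K := fun x => univ.filter fun l => ∀ S ∈ D x, ∀ S' ∈ D x, (l ∈ S ↔ l ∈ S')
  let φ : V → Finset K → Finset K := fun x S => (S \ T x) ∪ {κ x}
  have hT : ∀ x l, l ∈ T x ↔ ∀ S ∈ D x, ∀ S' ∈ D x, (l ∈ S ↔ l ∈ S') := by
    intro x l; simp [T]
  have hφ : ∀ x l S, l ∈ φ x S ↔ (l ∈ S ∧ l ∉ T x) ∨ l = κ x := by
    intro x l S; simp [φ, or_comm]
  have hinj : ∀ x ∈ s, Set.InjOn (φ x) (D x : Set (Finset K)) := by
    intro x hx S hS S' hS' h
    rw [mem_coe] at hS hS'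
    ext l
    by_cases hl : l ∈ T x
    · exact (hT x l).1 hl S hS S' hS'
    · have hne : l ≠ κ x := by
        rintro rfl
        exact hl ((hT x _).2 (h1 x hx))
      have := congrArg (fun F => l ∈ F) h
      simp only [hφ, eq_iff_iff] at this
      constructor
      · intro h3
        rcases this.1 (Or.inl ⟨h3, hl⟩) with h4 | h4
        · exact h4.1
        · exact absurd h4 hne
      · intro h3
        rcases this.2 (Or.inl ⟨h3, hl⟩) with h4 | h4
        · exact h4.1
        · exact absurd h4 hne
  have hdisj : (s : Set V).PairwiseDisjoint fun x => (D x).image (φ x) := by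
    intro x hx y hy hxy
    rw [mem_coe] at hx hy
    rw [Function.onFun, Finset.disjoint_left]
    intro F hF hF'
    obtain ⟨S, hS, rfl⟩ := mem_image.1 hF
    obtain ⟨S', hS', h3⟩ := mem_image.1 hF'
    have hk := hκ x hx y hy hxy
    rcases h2 x hx y hy hxy with h4 | h4
    · have h5 : κ y ∈ T x := (hT x _).2 h4
      have h6 : κ y ∈ φ y S' := (hφ _ _ _).2 (Or.inr rfl)
      rw [h3, hφ] at h6
      rcases h6 with h6 | h6
      · exact h6.2 h5
      · exact hk h6.symm
    · have h5 : κ x ∈ T y := (hT y _).2 h4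
      have h6 : κ x ∈ φ x S := (hφ _ _ _).2 (Or.inr rfl)
      rw [← h3, hφ] at h6
      rcases h6 with h6 | h6
      · exact h6.2 h5
      · exact hk h6
  calc ∑ x ∈ s, (D x).card = ∑ x ∈ s, ((D x).image (φ x)).card :=
        sum_congr rfl fun x hx => (card_image_of_injOn (hinj x hx)).symm
    _ = (s.biUnion fun x => (D x).image (φ x)).card := (card_biUnion hdisj).symm
    _ ≤ (univ : Finset (Finset K)).card := card_le_card (subset_univ _)
    _ = 2 ^ Fintype.card K := by rw [card_univ, Fintype.card_finset]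

section abstract_part

open Classical

variable {X I J K : Type} [Fintype I] [Fintype J] [Fintype K]

/-- The sets for which `W` distinguishes the true point from the false point. -/
noncomputable def dset (τ : I → J → K → X) (ζ : I → J → Finset K → X) (W : X → ℝ)
    (i : I) (j : J) (k : K) : Finset (Finset K) :=
  univ.filter fun S => W (τ i j k) < W (ζ i j S)

/-- Mixed triples. -/
def Mixed (τ : I → J → K → X) (ζ : I → J → Finset K → X) (W : X → ℝ) (i : I) (j : J) (k : K) :
    Prop :=
  (∃ S ∈ dset τ ζ W i j k, k ∈ S) ∧ ∃ S ∈ dset τ ζ W i j k, k ∉ S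

theorem mem_dset {τ : I → J → K → X} {ζ : I → J → Finset K → X} {W : X → ℝ}
    {i : I} {j : J} {k : K} {S : Finset K} :
    S ∈ dset τ ζ W i j k ↔ W (τ i j k) < W (ζ i j S) := by
  simp [dset]

theorem const_of_not_mixed {τ : I → J → K → X} {ζ : I → J → Finset K → X} {W : X → ℝ}
    {i : I} {j : J} {k : K} (h : ¬ Mixed τ ζ W i j k) :
    ∀ S ∈ dset τ ζ W i j k, ∀ S' ∈ dset τ ζ W i j k, (k ∈ S ↔ k ∈ S') := by
  intro S hS S' hS'
  by_contra hcon
  by_cases h1 : k ∈ S
  · by_cases h2 : k ∈ S'
    · exact hcon (iff_of_true h1 h2)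
    · exact h ⟨⟨S, hS, h1⟩, S', hS', h2⟩
  · by_cases h2 : k ∈ S'
    · exact h ⟨⟨S', hS', h2⟩, S, hS, h1⟩
    · exact hcon (iff_of_false h1 h2)

/-- If `k` is not mixed and `k'` has a smaller set then the set of `k'` is constant at `k`. -/
theorem const_of_nested {τ : I → J → K → X} {ζ : I → J → Finset K → X} {W : X → ℝ}
    {i : I} {j : J} {k k' : K} (h : ¬ Mixed τ ζ W i j k) (hW : W (τ i j k) ≤ W (τ i j k')) :
    ∀ S ∈ dset τ ζ W i j k', ∀ S' ∈ dset τ ζ W i j k', (k ∈ S ↔ k ∈ S') := by
  intro S hS S' hS'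
  rw [mem_dset] at hS hS'
  exact const_of_not_mixed h S (mem_dset.2 (lt_of_le_of_lt hW hS)) S'
    (mem_dset.2 (lt_of_le_of_lt hW hS'))

variable [Preorder X] {τ : I → J → K → X} {ζ : I → J → Finset K → X}

/-- The hypotheses on the points. -/
structure Points (τ : I → J → K → X) (ζ : I → J → Finset K → X) : Prop where
  diff : ∀ i i' j j' k S, i ≠ i' → j ≠ j' → ζ i j S ≤ τ i' j' k
  row : ∀ i j j' k S, j ≠ j' → k ∈ S → ζ i j S ≤ τ i j' k
  col : ∀ i i' j k S, i ≠ i' → k ∉ S → ζ i j S ≤ τ i' j k

/-- For a fixed row a mixed `k` determines the column. -/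
theorem Points.row_uniq (h : Points τ ζ) {W : X → ℝ} (hW : Monotone W) {i : I} {j j' : J} {k : K}
    (h1 : Mixed τ ζ W i j k) (h2 : Mixed τ ζ W i j' k) : j = j' := by
  by_contra hj
  obtain ⟨⟨S, hS, hk⟩, -⟩ := h1
  obtain ⟨⟨S', hS', hk'⟩, -⟩ := h2
  rw [mem_dset] at hS hS'
  have h3 := hW (h.row i j j' k S hj hk)
  have h4 := hW (h.row i j' j k S' (Ne.symm hj) hk')
  linarith

/-- For a fixed column a mixed `k` determines the row. -/
theorem Points.col_uniq (h : Points τ ζ) {W : X → ℝ} (hW : Monotone W) {i i' : I} {j : J} {k : K}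
    (h1 : Mixed τ ζ W i j k) (h2 : Mixed τ ζ W i' j k) : i = i' := by
  by_contra hi
  obtain ⟨-, ⟨S, hS, hk⟩⟩ := h1
  obtain ⟨-, ⟨S', hS', hk'⟩⟩ := h2
  rw [mem_dset] at hS hS'
  have h3 := hW (h.col i i' j k S hi hk)
  have h4 := hW (h.col i' i j k S' (Ne.symm hi) hk')
  linarith

/-- The tournament condition. -/
theorem Points.tour (h : Points τ ζ) {W : X → ℝ} (hW : Monotone W) {i i' : I} {j j' : J}
    {k k' : K} (hne : (i, j) ≠ (i', j')) (h1 : (dset τ ζ W i j k).Nonempty)
    (h2 : (dset τ ζ W i' j' k').Nonempty) :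
    (∀ S ∈ dset τ ζ W i j k, ∀ S' ∈ dset τ ζ W i j k, (k' ∈ S ↔ k' ∈ S')) ∨
      (∀ S ∈ dset τ ζ W i' j' k', ∀ S' ∈ dset τ ζ W i' j' k', (k ∈ S ↔ k ∈ S')) := by
  by_cases hi : i = i'
  · subst hi
    have hj : j ≠ j' := fun hj => hne (by rw [hj])
    by_contra hcon
    rw [not_or] at hcon
    have h3 : ∃ S ∈ dset τ ζ W i j k, k' ∈ S := by
      by_contra h4
      push Not at h4
      exact hcon.1 fun S hS S' hS' => iff_of_false (h4 S hS) (h4 S' hS')
    have h5 : ∃ S ∈ dset τ ζ W i j' k', k ∈ S := by
      by_contra h4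
      push Not at h4
      exact hcon.2 fun S hS S' hS' => iff_of_false (h4 S hS) (h4 S' hS')
    obtain ⟨S, hS, hk'⟩ := h3
    obtain ⟨S', hS', hk⟩ := h5
    rw [mem_dset] at hS hS'
    have h6 := hW (h.row i j j' k' S hj hk')
    have h7 := hW (h.row i j' j k S' (Ne.symm hj) hk)
    linarith
  · by_cases hj : j = j'
    · subst hj
      by_contra hcon
      rw [not_or] at hcon
      have h3 : ∃ S ∈ dset τ ζ W i j k, k' ∉ S := by
        by_contra h4
        push Not at h4
        exact hcon.1 fun S hS S' hS' => iff_of_true (h4 S hS) (h4 S' hS')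
      have h5 : ∃ S ∈ dset τ ζ W i' j k', k ∉ S := by
        by_contra h4
        push Not at h4
        exact hcon.2 fun S hS S' hS' => iff_of_true (h4 S hS) (h4 S' hS')
      obtain ⟨S, hS, hk'⟩ := h3
      obtain ⟨S', hS', hk⟩ := h5
      rw [mem_dset] at hS hS'
      have h6 := hW (h.col i i' j k' S hi hk')
      have h7 := hW (h.col i' i j k S' (Ne.symm hi) hk)
      linarith
    · exfalso
      obtain ⟨S, hS⟩ := h1
      obtain ⟨S', hS'⟩ := h2
      rw [mem_dset] at hS hS'
      have h6 := hW (h.diff i i' j j' k' S hi hj)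
      have h7 := hW (h.diff i' i j' j k S' (Ne.symm hi) (Ne.symm hj))
      linarith

/-- The quadruples of a wire. -/
noncomputable def wire (τ : I → J → K → X) (ζ : I → J → Finset K → X) (Wg Wa : X → ℝ) :
    Finset (Σ _ : I × J × K, Finset K) :=
  (univ.filter fun p : I × J × K => Mixed τ ζ Wg p.1 p.2.1 p.2.2 ∧
    ¬ Mixed τ ζ Wa p.1 p.2.1 p.2.2).sigma fun p => dset τ ζ Wa p.1 p.2.1 p.2.2

theorem Points.sum_le (h : Points τ ζ) {Wa : X → ℝ} (hW : Monotone Wa) (s : Finset (I × J × K))
    (hs : ∀ p ∈ s, ¬ Mixed τ ζ Wa p.1 p.2.1 p.2.2)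
    (hs' : ∀ p ∈ s, ∀ q ∈ s, p ≠ q → p.2.2 = q.2.2 → (p.1 = q.1 ∨ p.2.1 = q.2.1) → False) :
    ∑ p ∈ s, (dset τ ζ Wa p.1 p.2.1 p.2.2).card ≤ 2 ^ Fintype.card K := by
  have h1 : ∑ p ∈ s, (dset τ ζ Wa p.1 p.2.1 p.2.2).card =
      ∑ p ∈ s.filter (fun p : I × J × K => (dset τ ζ Wa p.1 p.2.1 p.2.2).Nonempty),
        (dset τ ζ Wa p.1 p.2.1 p.2.2).card := by
    rw [sum_filter]
    refine sum_congr rfl fun p _ => ?_
    split_ifs with hp
    · rfl
    · rw [not_nonempty_iff_eq_empty] at hp
      rw [hp, card_empty]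
  rw [h1]
  refine tournament _ (fun p : I × J × K => p.2.2)
    (fun p : I × J × K => dset τ ζ Wa p.1 p.2.1 p.2.2) ?_ ?_ ?_
  · rintro ⟨i, j, k⟩ hp ⟨i', j', k'⟩ hq hne hk
    rw [mem_filter] at hp hq
    simp only at hk hp hq
    refine hs' _ hp.1 _ hq.1 hne hk ?_
    by_contra hcon
    rw [not_or] at hcon
    obtain ⟨S, hS⟩ := hp.2
    obtain ⟨S', hS'⟩ := hq.2
    rw [mem_dset] at hS hS'
    have h6 := hW (h.diff i i' j j' k' S hcon.1 hcon.2)
    have h7 := hW (h.diff i' i j' j k S' (Ne.symm hcon.1) (Ne.symm hcon.2))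
    linarith
  · intro p hp
    exact const_of_not_mixed (hs p (mem_filter.1 hp).1)
  · rintro ⟨i, j, k⟩ hp ⟨i', j', k'⟩ hq hne
    rw [mem_filter] at hp hq
    by_cases hij : (i, j) = (i', j')
    · simp only [Prod.mk.injEq] at hij
      obtain ⟨rfl, rfl⟩ := hij
      rcases le_total (Wa (τ i j k)) (Wa (τ i j k')) with hle | hle
      · right
        exact const_of_nested (hs _ hp.1) hle
      · left
        exact const_of_nested (hs _ hq.1) hle
    · exact h.tour hW hij hp.2 hq.2

theorem Points.card_wire (h : Points τ ζ) {Wg Wa : X → ℝ} (hWg : Monotone Wg)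
    (hWa : Monotone Wa) : (wire τ ζ Wg Wa).card ≤ 2 ^ Fintype.card K := by
  rw [wire, card_sigma]
  refine h.sum_le hWa _ (fun p hp => (mem_filter.1 hp).2.2) ?_
  rintro ⟨i, j, k⟩ hp ⟨i', j', k'⟩ hq hne hk hij
  rw [mem_filter] at hp hq
  simp only at hk hp hq hij
  subst hk
  rcases hij with rfl | rfl
  · exact hne (by rw [h.row_uniq hWg hp.2.1 hq.2.1])
  · exact hne (by rw [h.col_uniq hWg hp.2.1 hq.2.1])

end abstract_part

namespace Prog

variable {ι O : Type}

/-- The outcomes of the tests. -/
noncomputable def path : Prog ι O → (ι ⊕ ℕ → ℝ) → List Bool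
  | stop _, _ => []
  | gate _ src f _ dst next, s =>
      next.path (open Classical in Function.update s dst (f fun a => s (src a)))
  | test R c yes no, s =>
      open Classical in if s R < c then true :: yes.path s else false :: no.path s

/-- All possible lists of outcomes. -/
def paths : Prog ι O → Finset (List Bool)
  | stop _ => {[]}
  | gate _ _ _ _ _ next => next.paths
  | test _ _ yes no => yes.paths.image (List.cons true) ∪ no.paths.image (List.cons false)

theorem path_mem (P : Prog ι O) (s : ι ⊕ ℕ → ℝ) : P.path s ∈ P.paths := by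
  induction P generalizing s with
  | stop out => simp [path, paths]
  | gate k src f hf dst next ih => simpa [path, paths] using ih _
  | test R c yes no ih1 ih2 =>
    simp only [path, paths]
    split_ifs
    · exact mem_union_left _ (mem_image_of_mem _ (ih1 s))
    · exact mem_union_right _ (mem_image_of_mem _ (ih2 s))

theorem card_paths_le (P : Prog ι O) : P.paths.card ≤ P.leaves := by
  induction P with
  | stop out => simp [leaves, paths]
  | gate k src f hf dst next ih => simpa [leaves, paths] using ih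
  | test R c yes no ih1 ih2 =>
    simp only [leaves, paths]
    refine (card_union_le _ _).trans (add_le_add (card_image_le.trans ih1) (card_image_le.trans ih2))

theorem leaves_pos (P : Prog ι O) : 0 < P.leaves := by
  induction P with
  | stop out => simp [leaves]
  | gate k src f hf dst next ih => simpa [leaves] using ih
  | test R c yes no ih1 ih2 => simp only [leaves]; omega

open Classical in
theorem update_mono {k : ℕ} {src : Fin k → ι ⊕ ℕ} {f : (Fin k → ℝ) → ℝ} (hf : Monotone f)
    {dst : ι ⊕ ℕ} {s s' : ι ⊕ ℕ → ℝ} (h : s ≤ s') :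
    Function.update s dst (f fun a => s (src a)) ≤
      Function.update s' dst (f fun a => s' (src a)) := by
  intro R
  by_cases hR : R = dst
  · subst hR
    simp only [Function.update_self]
    exact hf (fun a => h (src a))
  · simp only [Function.update_of_ne hR]
    exact h R

theorem path_between (P : Prog ι O) {s s' s'' : ι ⊕ ℕ → ℝ} (h : s ≤ s') (h' : s' ≤ s'')
    (hp : P.path s = P.path s'') : P.path s' = P.path s := by
  induction P generalizing s s' s'' with
  | stop out => simp [path]
  | gate k src f hf dst next ih =>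
    simp only [path] at hp ⊢
    exact ih (update_mono hf h) (update_mono hf h') hp
  | test R c yes no ih1 ih2 =>
    simp only [path] at hp ⊢
    have h1 := h R
    have h2 := h' R
    by_cases hs : s R < c
    · have hs'' : s'' R < c := by
        by_contra hcon
        simp [hs, hcon] at hp
      have hs' : s' R < c := lt_of_le_of_lt h2 hs''
      simp only [hs, hs', hs'', if_true, List.cons.injEq, true_and] at hp ⊢
      exact ih1 h h' hp
    · have hs'' : ¬ s'' R < c := by
        intro hcon
        exact hs (lt_of_le_of_lt (h1.trans h2) hcon)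
      have hs' : ¬ s' R < c := by
        intro hcon
        exact hs (lt_of_le_of_lt h1 hcon)
      simp only [hs, hs', hs'', if_false, List.cons.injEq, true_and] at hp ⊢
      exact ih2 h h' hp

section

open Classical

variable {X I J K : Type} [Fintype I] [Fintype J] [Fintype K]
variable [Preorder X] {τ : I → J → K → X} {ζ : I → J → Finset K → X}

/-- Monotonicity of the answers. -/
theorem answer_mono (P : Prog ι O) (S : X → (ι ⊕ ℕ → ℝ)) (hS : ∀ R, Monotone fun x => S x R)
    (hP : ∀ x y, P.path (S x) = P.path (S y)) (o : O) :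
    Monotone fun x => P.answer (S x) o := by
  induction P generalizing S with
  | stop out => simpa [answer] using hS _
  | gate k src f hf dst next ih =>
    simp only [answer, path] at hP ⊢
    refine ih _ ?_ hP
    intro R x y hxy
    exact update_mono hf (fun R => hS R hxy) R
  | test R c yes no ih1 ih2 =>
    intro x y hxy
    have hxy' := hP x y
    simp only [answer, path] at hxy' ⊢
    by_cases hs : S x R < c
    · have hall : ∀ z, S z R < c := by
        intro z
        by_contra hz
        have := hP x z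
        simp [path, hs, hz] at this
      have := ih1 S hS (fun z w => by
        have := hP z w
        simpa [path, hall z, hall w] using this) hxy
      simpa [hall x, hall y] using this
    · have hall : ∀ z, ¬ S z R < c := by
        intro z hz
        have := hP x z
        simp [path, hs, hz] at this
      have := ih2 S hS (fun z w => by
        have := hP z w
        simpa [path, hall z, hall w] using this) hxy
      simpa [hall x, hall y] using this

theorem gate_D {k : ℕ} {f : (Fin k → ℝ) → ℝ} (hf : Monotone f) {u v : Fin k → ℝ}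
    (h : f u < f v) : ∃ a, u a < v a := by
  by_contra hcon
  push Not at hcon
  exact absurd (hf (fun a => hcon a)) (not_le.2 h)

/-- The main lemma: every mixed quadruple of an answer is in one of at most `2 ^ |K| * cost`
places, or it comes from the state at the start. -/
theorem exists_places (hX : Points τ ζ) (P : Prog ι O) (S : X → (ι ⊕ ℕ → ℝ))
    (hS : ∀ R, Monotone fun x => S x R) (hP : ∀ x y, P.path (S x) = P.path (S y)) (x₀ : X) :
    ∃ A : Finset (Σ _ : I × J × K, Finset K), A.card ≤ 2 ^ Fintype.card K * P.cost (S x₀) ∧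
      ∀ (o : O) (i : I) (j : J) (k : K) (T : Finset K),
        T ∈ dset τ ζ (fun x => P.answer (S x) o) i j k →
        Mixed τ ζ (fun x => P.answer (S x) o) i j k →
        ⟨(i, j, k), T⟩ ∈ A ∨ ∃ R, T ∈ dset τ ζ (fun x => S x R) i j k ∧
          Mixed τ ζ (fun x => S x R) i j k := by
  induction P generalizing S with
  | stop out =>
    refine ⟨∅, by simp, ?_⟩
    intro o i j k T h1 h2
    right
    exact ⟨out o, h1, h2⟩
  | gate m src f hf dst next ih =>
    simp only [path] at hP
    simp only [answer, cost]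
    set S' : X → (ι ⊕ ℕ → ℝ) := fun x => Function.update (S x) dst (f fun a => S x (src a))
      with hS'def
    have hS' : ∀ R, Monotone fun x => S' x R := by
      intro R x y hxy
      exact update_mono hf (fun R => hS R hxy) R
    obtain ⟨A, hA, hA'⟩ := ih S' hS' hP
    refine ⟨A ∪ univ.biUnion fun a : Fin m =>
      wire τ ζ (fun x => S' x dst) (fun x => S x (src a)), ?_, ?_⟩
    · refine (card_union_le _ _).trans ?_
      have h1 : (univ.biUnion fun a : Fin m =>
          wire τ ζ (fun x => S' x dst) (fun x => S x (src a))).card ≤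
            m * 2 ^ Fintype.card K := by
        refine card_biUnion_le.trans ?_
        calc ∑ a : Fin m, (wire τ ζ (fun x => S' x dst) (fun x => S x (src a))).card
            ≤ ∑ _a : Fin m, 2 ^ Fintype.card K :=
              sum_le_sum fun a _ => hX.card_wire (hS' dst) (hS (src a))
          _ = m * 2 ^ Fintype.card K := by simp
      have h2 : A.card ≤ 2 ^ Fintype.card K * next.cost (S' x₀) := hA
      calc A.card + _ ≤ 2 ^ Fintype.card K * next.cost (S' x₀) + m * 2 ^ Fintype.card K :=
            add_le_add h2 h1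
        _ = 2 ^ Fintype.card K * (m + next.cost (S' x₀)) := by ring
    · intro o i j k T h1 h2
      rcases hA' o i j k T h1 h2 with h | ⟨R, hR1, hR2⟩
      · exact Or.inl (mem_union_left _ h)
      · by_cases hR : R = dst
        · subst hR
          have hval : ∀ x, S' x R = f (fun a => S x (src a)) := by
            intro x; simp [hS'def]
          have hD : f (fun a => S (τ i j k) (src a)) < f (fun a => S (ζ i j T) (src a)) := by
            rw [← hval, ← hval]; exact mem_dset.1 hR1
          obtain ⟨a, ha⟩ := gate_D hf hD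
          by_cases hc : Mixed τ ζ (fun x => S x (src a)) i j k
          · exact Or.inr ⟨src a, mem_dset.2 ha, hc⟩
          · left
            refine mem_union_right _ (mem_biUnion.2 ⟨a, mem_univ _, ?_⟩)
            rw [wire, mem_sigma]
            exact ⟨mem_filter.2 ⟨mem_univ _, hR2, hc⟩, mem_dset.2 ha⟩
        · have hval : ∀ x, S' x R = S x R := by
            intro x; simp [hS'def, Function.update_of_ne hR]
          simp only [hval] at hR1 hR2
          exact Or.inr ⟨R, hR1, hR2⟩
  | test R c yes no ih1 ih2 =>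
    by_cases hs : S x₀ R < c
    · have hall : ∀ z, S z R < c := by
        intro z
        by_contra hz
        have := hP x₀ z
        simp [path, hs, hz] at this
      have := ih1 S hS (fun z w => by
        have := hP z w
        simpa [path, hall z, hall w] using this)
      simpa only [answer, cost, hall, if_true] using this
    · have hall : ∀ z, ¬ S z R < c := by
        intro z hz
        have := hP x₀ z
        simp [path, hs, hz] at this
      have := ih2 S hS (fun z w => by
        have := hP z w
        simpa [path, hall z, hall w] using this)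
      simpa only [answer, cost, hall, if_false] using this

end

end Prog

end Pool.Agent.H587R2.MRB
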