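import Mathlib

/-!
# Monotone real programs

A program is a tree.  Its registers hold real numbers: `Sum.inl e` contains the input number `e` at
the start, and `Sum.inr q` contains `0`.  A `gate` node replaces the contents of one register by
the value of a nondecreasing function of any number `k` of registers (cost `k`), a `test` node
branches according to whether the contents of a register is less than a constant (cost `0`), and a
leaf says which registers are the outputs.
-/

namespace Pool.Agent.H587R2.MRB

/-- Monotone real programs with tests, with inputs `ι` and outputs `O`. -/
inductive Prog (ι O : Type) : Type
  /-- The end: the output number `o` is in the register `out o`. -/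
  | stop (out : O → ι ⊕ ℕ) : Prog ι O
  /-- Put `f` of the contents of the registers `src a`, `a < k`, into the register `dst`. -/
  | gate (k : ℕ) (src : Fin k → ι ⊕ ℕ) (f : (Fin k → ℝ) → ℝ) (hf : Monotone f) (dst : ι ⊕ ℕ)
      (next : Prog ι O) : Prog ι O
  /-- Continue with `yes` if the contents of `R` is less than `c`, and with `no` otherwise. -/
  | test (R : ι ⊕ ℕ) (c : ℝ) (yes no : Prog ι O) : Prog ι O

/-- The contents of the registers at the start. -/
def initial {ι : Type} (w : ι → ℝ) : ι ⊕ ℕ → ℝ
  | Sum.inl e => w e
  | Sum.inr _ => 0

namespace Prog

variable {ι O : Type}

/-- The number of leaves of the program, at most `2 ^ t` if there are at most `t` tests on every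
branch. -/
def leaves : Prog ι O → ℕ
  | stop _ => 1
  | gate _ _ _ _ _ next => next.leaves
  | test _ _ yes no => yes.leaves + no.leaves

open Classical in
/-- The cost of a run of the program: the sum of the numbers of arguments of the gates which are
used.  Tests are free. -/
noncomputable def cost : Prog ι O → (ι ⊕ ℕ → ℝ) → ℕ
  | stop _, _ => 0
  | gate k src f _ dst next, s => k + next.cost (Function.update s dst (f fun a => s (src a)))
  | test R c yes no, s => if s R < c then yes.cost s else no.cost s

open Classical in
/-- The real number in the output register `o` at the end of a run. -/
noncomputable def answer : Prog ι O → (ι ⊕ ℕ → ℝ) → O → ℝ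
  | stop out, s => fun o => s (out o)
  | gate _ src f _ dst next, s => next.answer (Function.update s dst (f fun a => s (src a)))
  | test R c yes no, s => if s R < c then yes.answer s else no.answer s

end Prog

end Pool.Agent.H587R2.MRB
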